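import Pool.Agent.Helper43.Gm.Goals

/-! Packet F2: from the game to regions, independence. -/

set_option autoImplicit false

namespace Pool.Agent.Helper43.Gm.PkF2

open Finset Pool.Agent.Lead.Sh Pool.Agent.Helper43.Gm Pool.Agent.Helper43.Ah

lemma card_region (p R : ℕ) (s ℓ ℓ2 : ℕ → ℕ) (D : Finset (ℕ × ℕ)) (hD : Reg p R s ℓ D)
    (hle : ∀ y < R, ℓ2 y ≤ ℓ y) :
    (D.filter (fun d => d.1 < s (p * d.1 + d.2) + ℓ2 (p * d.1 + d.2))).card =
      ∑ y ∈ range R, ℓ2 y := by
  classical
  have hmaps : ∀ d ∈ D.filter (fun d => d.1 < s (p * d.1 + d.2) + ℓ2 (p * d.1 + d.2)),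
      p * d.1 + d.2 ∈ range R := by
    intro d hd
    rw [mem_filter, hD.1] at hd
    exact mem_range.2 hd.1.1
  rw [Finset.card_eq_sum_card_fiberwise hmaps]
  refine Finset.sum_congr rfl (fun y hy => ?_)
  rw [mem_range] at hy
  have hc : (Finset.Ico (s y) (s y + ℓ2 y)).card = ℓ2 y := by
    rw [Nat.card_Ico]; omega
  rw [← hc]
  refine Finset.card_bij (fun d _ => d.1) ?_ ?_ ?_
  · intro d hd
    rw [mem_filter, mem_filter, hD.1] at hd
    obtain ⟨⟨⟨h1, h2, h3⟩, h4⟩, h5⟩ := hd
    rw [h5] at h2 h4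
    exact mem_Ico.2 ⟨h2, h4⟩
  · intro d hd d' hd' he
    rw [mem_filter] at hd hd'
    have h5 := hd.2
    have h6 := hd'.2
    have he' : d.1 = d'.1 := he
    rw [he'] at h5
    refine Prod.ext he' ?_
    omega
  · intro k hk
    rw [mem_Ico] at hk
    have h1 : p * k ≤ y := hD.2 y hy k hk.1 (by have := hle y hy; omega)
    have h2 : p * k + (y - p * k) = y := by omega
    refine ⟨(k, y - p * k), ?_, rfl⟩
    rw [mem_filter, mem_filter, hD.1]
    dsimp only
    rw [h2]
    exact ⟨⟨⟨hy, hk.1, by have := hle y hy; omega⟩, hk.2⟩, rfl⟩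

/-- from prices to independence -/
lemma fin_ind (hA : GoalA) (p R : ℕ) (s ℓ : ℕ → ℕ) (D : Finset (ℕ × ℕ)) (hD : Reg p R s ℓ D)
    (N : ℕ) (ν : ℕ → ℕ) (n : ℕ → ℕ → ℕ) (π ε : ℕ → ℤ) (hP : Pri R ν n π ε N)
    (hle : ∀ y < R, ∑ c ∈ range N, n c y ≤ ℓ y)
    (hsum : ∑ y ∈ range R, ∑ c ∈ range N, n c y = ∑ c ∈ range N, (ν c + 1).choose 2) :
    ∃ D2, D2 ⊆ D ∧ D2.card = ∑ c ∈ range N, (ν c + 1).choose 2 ∧ Inj D2 (rows ν (range N)) := by
  classical
  refine ⟨D.filter (fun d => d.1 < s (p * d.1 + d.2) + ∑ c ∈ range N, n c (p * d.1 + d.2)),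
    filter_subset _ _, ?_, ?_⟩
  · rw [← hsum]
    exact card_region p R s ℓ (fun y => ∑ c ∈ range N, n c y) D hD hle
  · refine hA p R s (fun y => ∑ c ∈ range N, n c y) _ ?_ N ν n π ε hP (fun y _ => le_rfl)
    intro d hd
    rw [mem_filter, hD.1] at hd
    exact ⟨hd.1.1, hd.1.2.1, hd.2⟩

/-- reversal of the rows -/
lemma pri_rev (R : ℕ) (ν : ℕ → ℕ) (n : ℕ → ℕ → ℕ) (π ε : ℕ → ℤ) (N : ℕ) (hP : Pri R ν n π ε N) :
    Pri R ν (fun c y => n c (R - 1 - y)) (fun y => π (R - 1 - y)) (fun c => - ε c) N := by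
  intro c hc y hy hn
  obtain ⟨U, h1, h2, h3⟩ := hP c hc (R - 1 - y) (by omega) hn
  refine ⟨(U.filter (fun u => u < R)).image (fun u => R - 1 - u), ?_, ?_, ?_⟩
  · intro h
    rw [mem_image] at h
    obtain ⟨u, hu, he⟩ := h
    rw [mem_filter] at hu
    have : R - 1 - y = u := by omega
    exact h1 (this ▸ hu.1)
  · have h4 : ((U.filter (fun u => u < R)).image (fun u => R - 1 - u)).card ≤ U.card :=
      (Finset.card_image_le).trans (Finset.card_le_card (filter_subset _ _))
    dsimp only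
    omega
  · intro y' hy' hU hne
    have h5 : R - 1 - y' ∉ U := by
      intro h
      apply hU
      rw [mem_image]
      exact ⟨R - 1 - y', mem_filter.2 ⟨h, by omega⟩, by omega⟩
    have h6 := h3 (R - 1 - y') (by omega) h5 (by omega)
    have e1 : ((R - 1 - y' : ℕ) : ℤ) = (R : ℤ) - 1 - y' := by omega
    have e2 : ((R - 1 - y : ℕ) : ℤ) = (R : ℤ) - 1 - y := by omega
    rw [e1, e2] at h6
    dsimp only
    linarith

/-- shifting the rows by `c0` -/
lemma pri_shift (R c0 : ℕ) (h0 : c0 ≤ R) (ν : ℕ → ℕ) (n : ℕ → ℕ → ℕ) (π ε : ℕ → ℤ) (N : ℕ)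
    (hP : Pri (R - c0) ν n π ε N) :
    ∃ π1 : ℕ → ℤ, Pri R ν (fun c y => if y < c0 then 0 else n c (y - c0)) π1 ε N := by
  set L : ℤ := 1 + ∑ c ∈ range N, |ε c| * R + ∑ y ∈ range (R - c0), |π y| with hL
  refine ⟨fun y => if y < c0 then -L else π (y - c0), ?_⟩
  intro c hc y hy hn
  by_cases hyc : y < c0
  · simp [hyc] at hn
  have hn' : 0 < n c (y - c0) := by simpa [hyc] using hn
  obtain ⟨U, h1, h2, h3⟩ := hP c hc (y - c0) (by omega) hn'
  refine ⟨U.image (fun u => u + c0), ?_, ?_, ?_⟩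
  · intro h
    rw [mem_image] at h
    obtain ⟨u, hu, he⟩ := h
    have : y - c0 = u := by omega
    exact h1 (this ▸ hu)
  · have h4 : (U.image (fun u => u + c0)).card ≤ U.card := Finset.card_image_le
    simp only [hyc, if_false]
    omega
  · intro y' hy' hU hne
    simp only [hyc, if_false]
    by_cases hyc' : y' < c0
    · simp only [hyc', if_true]
      have b1 : |ε c| * R ≤ ∑ c ∈ range N, |ε c| * R :=
        Finset.single_le_sum (f := fun c => |ε c| * (R : ℤ))
          (fun i _ => mul_nonneg (abs_nonneg _) (by positivity)) (mem_range.2 hc)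
      have b2 : |π (y - c0)| ≤ ∑ y ∈ range (R - c0), |π y| :=
        Finset.single_le_sum (f := fun y => |π y|)
          (fun i _ => abs_nonneg _) (mem_range.2 (by omega))
      have b3 : ε c * ((y : ℤ) - y') ≤ |ε c| * R := by
        have h7 : (0 : ℤ) ≤ (y : ℤ) - y' := by omega
        have h8 : (y : ℤ) - y' ≤ R := by omega
        calc ε c * ((y : ℤ) - y') ≤ |ε c| * ((y : ℤ) - y') :=
              mul_le_mul_of_nonneg_right (le_abs_self _) h7
          _ ≤ |ε c| * R := mul_le_mul_of_nonneg_left h8 (abs_nonneg _)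
      have b4 := neg_abs_le (π (y - c0))
      have e : ε c * ((y : ℤ) - y') = ε c * y - ε c * y' := by ring
      rw [e] at b3
      linarith
    · simp only [hyc', if_false]
      have h5 : y' - c0 ∉ U := by
        intro h
        apply hU
        rw [mem_image]
        exact ⟨y' - c0, h, by omega⟩
      have h6 := h3 (y' - c0) (by omega) h5 (by omega)
      have e1 : ((y' - c0 : ℕ) : ℤ) = (y' : ℤ) - c0 := by omega
      have e2 : ((y - c0 : ℕ) : ℤ) = (y : ℤ) - c0 := by omega
      rw [e1, e2] at h6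
      linarith

theorem goalF2 (hA : GoalA) (hE : GoalE2) : GoalF2 := by
  intro p M R c0 J s ℓ ℓ' D hD hrev hM hcJ hJR hdrop hgood hend m a b hab hm hsum
  classical
  rcases Nat.eq_or_lt_of_le hab with rfl | hlt
  · have : rows m (Ico a a) = ∅ := by
      ext r
      simp [mem_rows]
    rw [this]
    exact Pool.Agent.Lead.Rw.ind'_empty D
  obtain ⟨N, rfl⟩ : ∃ N, b = a + N := ⟨b - a, by omega⟩
  have hN : 1 ≤ N := by omega
  set ν : ℕ → ℕ := fun c => if c < N then m (a + c) else 1 with hν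
  have hν1 : ∀ c, 1 ≤ ν c := by
    intro c
    simp only [hν]
    split_ifs with h
    · exact (hm (a + c) (by omega) (by omega)).1
    · exact le_rfl
  have hνM : ∀ c, ν c ≤ M := by
    intro c
    simp only [hν]
    split_ifs with h
    · exact (hm (a + c) (by omega) (by omega)).2
    · exact hM
  have hνeq : ∀ c < N, ν c = m (a + c) := by
    intro c hc
    simp only [hν]
    rw [if_pos hc]
  have hsum1 : ∑ k ∈ Ico a (a + N), (m k + 1).choose 2 = ∑ c ∈ range N, (ν c + 1).choose 2 := by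
    rw [Finset.sum_Ico_eq_sum_range, Nat.add_sub_cancel_left]
    exact Finset.sum_congr rfl (fun c hc => by rw [hνeq c (mem_range.1 hc)])
  have hsum2 : ∑ y ∈ Ico c0 J, ℓ' y = ∑ y ∈ range (J - c0), ℓ' (c0 + y) :=
    Finset.sum_Ico_eq_sum_range _ _ _
  have hpos : 0 < ∑ c ∈ range N, (ν c + 1).choose 2 := by
    refine Finset.sum_pos (fun c _ => ?_) ⟨0, mem_range.2 hN⟩
    apply Nat.choose_pos
    have := hν1 c
    omega
  have hJc : c0 < J := by
    by_contra h
    have : J - c0 = 0 := by omega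
    rw [hsum1, hsum2, this, Finset.range_zero, Finset.sum_empty] at hsum
    omega
  obtain ⟨n, π, ε, hP, hle, heq⟩ := hE M (R - c0) (J - c0) ν (fun y => ℓ' (c0 + y)) hM hν1 hνM
    (by omega)
    (by
      intro y hy
      exact hdrop (c0 + y) (by omega))
    (by
      intro y hy
      exact hgood (c0 + y) (by omega) (by omega))
    (by
      rcases hend with h | h
      · left
        rw [show c0 + (R - c0 - 1) = R - 1 by omega]
        exact h
      · right
        omega) N (by rw [← hsum1, ← hsum2]; exact hsum)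
  obtain ⟨π1, hP1⟩ := pri_shift R c0 (by omega) ν n π ε N hP
  set n1 : ℕ → ℕ → ℕ := fun c y => if y < c0 then 0 else n c (y - c0) with hn1
  have hle1 : ∀ y < R, ∑ c ∈ range N, n1 c y ≤ ℓ' y := by
    intro y hy
    simp only [hn1]
    by_cases h : y < c0
    · simp [h]
    · simp only [h, if_false]
      have := hle (y - c0) (by omega)
      rwa [show c0 + (y - c0) = y by omega] at this
  have heq1 : ∑ y ∈ range R, ∑ c ∈ range N, n1 c y = ∑ c ∈ range N, (ν c + 1).choose 2 := by
    rw [← heq]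
    have hR : R = c0 + (R - c0) := by omega
    rw [hR, Finset.sum_range_add, ← hR]
    have z1 : ∑ y ∈ range c0, ∑ c ∈ range N, n1 c y = 0 := by
      apply Finset.sum_eq_zero
      intro y hy
      apply Finset.sum_eq_zero
      intro c _
      simp only [hn1]
      rw [if_pos (mem_range.1 hy)]
    rw [z1, zero_add]
    refine Finset.sum_congr rfl (fun y _ => Finset.sum_congr rfl (fun c _ => ?_))
    simp only [hn1]
    rw [if_neg (by omega), Nat.add_sub_cancel_left]
  have main : ∃ D2, D2 ⊆ D ∧ D2.card = ∑ c ∈ range N, (ν c + 1).choose 2 ∧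
      Inj D2 (rows ν (range N)) := by
    rcases hrev with h | h
    · rw [h] at hle1
      exact fin_ind hA p R s ℓ D hD N ν n1 π1 ε hP1 hle1 heq1
    · refine fin_ind hA p R s ℓ D hD N ν _ _ _ (pri_rev R ν n1 π1 ε N hP1) ?_ ?_
      · intro y hy
        have h1 := hle1 (R - 1 - y) (by omega)
        rw [h (R - 1 - y) (by omega)] at h1
        rwa [show R - 1 - (R - 1 - y) = y by omega] at h1
      · rw [← heq1]
        exact Finset.sum_range_reflect (fun y => ∑ c ∈ range N, n1 c y) R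
  obtain ⟨D2, h1, h2, h3⟩ := main
  refine ⟨D2, h1, ?_, ?_⟩
  · rw [h2, card_rows, hsum1]
  · refine inj_relabel (fun c => a + c) ?_ ?_ ?_ h3
    · intro k hk
      rw [mem_range] at hk
      rw [mem_Ico]
      omega
    · intro k _ k' _ he
      omega
    · intro k hk
      rw [hνeq k (mem_range.1 hk)]

end Pool.Agent.Helper43.Gm.PkF2
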